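import Pool.Agent.InfV.Main24

/-!
# Torsion group ℤ/2 × ℤ/4 and rank at least 6: infinitely many curves

`E₀ : y² = x (x + 161⁴)(x + 627⁴)`, the point `(2278575684, 1026811649798550)` has infinite order.  A point `(x, y)`
gives `m = (7 y - 6807887 x + 4525750661892893433)/(1044582 (49 x - 18592300510641))`, and with
`n = 627 m² + 292 m + 34`
`k = -627 (49 m² + 20 m + 2)/(161 n)`, `q = 2508 (17 m + 4)(13 m + 3)/n`,
`p = 2 (26733213090738 m² + 7111396218234 m + 205603385295 - x)/(3656037 · 161 n)` with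
`p² = 2 (393129 k² - 25921)`, `q² = 2 (393129 - 25921 k²)`.
-/

set_option autoImplicit false

namespace Pool.Agent.InfV

open WeierstrassCurve Pool.Agent.InfR Pool.Agent.InfS

instance fact13 : Fact (Nat.Prime 13) := ⟨by norm_num⟩
instance fact31 : Fact (Nat.Prime 31) := ⟨by norm_num⟩

theorem cardE13 : Nat.card (WI (ZMod 13) 155222308882 103842149055515582481).toAffine.Point = 16 :=
  card_aux _ _ (by decide +kernel)

theorem cardE31 : Nat.card (WI (ZMod 31) 155222308882 103842149055515582481).toAffine.Point = 24 :=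
  card_aux _ _ (by decide +kernel)

section aux

private theorem nsE : (WI (ZMod 31) 155222308882 103842149055515582481).toAffine.Nonsingular
    ((2278575684 : ℤ) : ZMod 31) ((1026811649798550 : ℤ) : ZMod 31) := by
  rw [Affine.nonsingular_iff, Affine.equation_iff]
  decide +kernel

private theorem kE (h : (WI (ZMod 31) 155222308882 103842149055515582481).toAffine.Nonsingular
    ((2278575684 : ℤ) : ZMod 31) ((1026811649798550 : ℤ) : ZMod 31)) :
    8 • (.some _ _ h : (WI (ZMod 31) 155222308882 103842149055515582481).toAffine.Point) ≠ 0 := by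
  have key : 8 • (.some _ _ nsE :
      (WI (ZMod 31) 155222308882 103842149055515582481).toAffine.Point) ≠ 0 := by
    decide +kernel
  exact key

private def bm {K : Type*} [Field K] (x y : K) : K :=
  (7 * y - 6807887 * x + 4525750661892893433) / (1044582 * (49 * x - 18592300510641))

private def bn {K : Type*} [Field K] (m : K) : K := 627 * m ^ 2 + 292 * m + 34

private def bk {K : Type*} [Field K] (m : K) : K :=
  -(627 * (49 * m ^ 2 + 20 * m + 2)) / (161 * bn m)

private def bq {K : Type*} [Field K] (m : K) : K := 2508 * (17 * m + 4) * (13 * m + 3) / bn m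

private def bp {K : Type*} [Field K] (x m : K) : K :=
  2 * (26733213090738 * m ^ 2 + 7111396218234 * m + 205603385295 - x) / (588621957 * bn m)

private theorem cgc {p : ℕ} [Fact p.Prime] {a : ℚ} {b c : ZMod p} (h : Cg p a b) (hb : b = c) :
    Cg p a c := hb ▸ h

private theorem cgm {p : ℕ} [Fact p.Prime] {x y : ℚ} {r s : ZMod p} (hx : Cg p x r) (hy : Cg p y s)
    (h : 1044582 * (49 * r - 18592300510641) ≠ 0) : Cg p (bm x y) (bm r s) :=
  Cg.div (Cg.add (Cg.sub (Cg.mul (Cg.ofNat 7) hy) (Cg.mul (Cg.ofNat 6807887) hx))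
    (Cg.ofNat 4525750661892893433))
    (Cg.mul (Cg.ofNat 1044582) (Cg.sub (Cg.mul (Cg.ofNat 49) hx) (Cg.ofNat 18592300510641))) h

private theorem cgn {p : ℕ} [Fact p.Prime] {m : ℚ} {r : ZMod p} (hm : Cg p m r) :
    Cg p (bn m) (bn r) :=
  Cg.add (Cg.add (Cg.mul (Cg.ofNat 627) (Cg.pow hm 2)) (Cg.mul (Cg.ofNat 292) hm)) (Cg.ofNat 34)

private theorem cgk {p : ℕ} [Fact p.Prime] {m : ℚ} {r : ZMod p} (hm : Cg p m r)
    (h : 161 * bn r ≠ 0) : Cg p (bk m) (bk r) :=
  Cg.div (Cg.neg (Cg.mul (Cg.ofNat 627) (Cg.add (Cg.add (Cg.mul (Cg.ofNat 49) (Cg.pow hm 2))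
    (Cg.mul (Cg.ofNat 20) hm)) (Cg.ofNat 2)))) (Cg.mul (Cg.ofNat 161) (cgn hm)) h

private theorem cgq {p : ℕ} [Fact p.Prime] {m : ℚ} {r : ZMod p} (hm : Cg p m r)
    (h : bn r ≠ 0) : Cg p (bq m) (bq r) :=
  Cg.div (Cg.mul (Cg.mul (Cg.ofNat 2508) (Cg.add (Cg.mul (Cg.ofNat 17) hm) (Cg.ofNat 4)))
    (Cg.add (Cg.mul (Cg.ofNat 13) hm) (Cg.ofNat 3))) (cgn hm) h

private theorem cgp {p : ℕ} [Fact p.Prime] {x m : ℚ} {s r : ZMod p} (hx : Cg p x s) (hm : Cg p m r)
    (h : 588621957 * bn r ≠ 0) : Cg p (bp x m) (bp s r) :=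
  Cg.div (Cg.mul (Cg.ofNat 2) (Cg.sub (Cg.add (Cg.add (Cg.mul (Cg.ofNat 26733213090738) (Cg.pow hm 2))
    (Cg.mul (Cg.ofNat 7111396218234) hm)) (Cg.ofNat 205603385295)) hx))
    (Cg.mul (Cg.ofNat 588621957) (cgn hm)) h

private theorem nm (m : ℚ) : bn m ≠ 0 := by
  have h : 0 < bn m := by
    unfold bn
    nlinarith [sq_nonneg (627 * m + 146)]
  exact h.ne'

private theorem eq_q (m : ℚ) : bq m ^ 2 = 2 * (393129 - 25921 * bk m ^ 2) := by
  have h := nm m
  have e : bq m ^ 2 * bn m ^ 2 = (2 * (393129 - 25921 * bk m ^ 2)) * bn m ^ 2 := by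
    unfold bq bk
    field_simp
    unfold bn
    ring
  exact mul_right_cancel₀ (pow_ne_zero 2 h) e

private theorem eq_p {x y m : ℚ}
    (hE : y ^ 2 = x ^ 3 + 155222308882 * x ^ 2 + 103842149055515582481 * x)
    (hx : 49 * x - 18592300510641 ≠ 0)
    (hm : 7 * y = m * (1044582 * (49 * x - 18592300510641)) + 6807887 * x - 4525750661892893433) :
    bp x m ^ 2 = 2 * (393129 * bk m ^ 2 - 25921) := by
  have h1 : 2 * (26733213090738 * m ^ 2 + 7111396218234 * m + 205603385295 - x) ^ 2 =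
      13366606545369 * (154550410641 * (49 * m ^ 2 + 20 * m + 2) ^ 2 -
        671898241 * (627 * m ^ 2 + 292 * m + 34) ^ 2) := by
    have h2 : (49 * x - 18592300510641) *
        (2 * (26733213090738 * m ^ 2 + 7111396218234 * m + 205603385295 - x) ^ 2 -
        13366606545369 * (154550410641 * (49 * m ^ 2 + 20 * m + 2) ^ 2 -
        671898241 * (627 * m ^ 2 + 292 * m + 34) ^ 2)) = 0 := by
      have h3 : 49 * y ^ 2 = (m * (1044582 * (49 * x - 18592300510641)) + 6807887 * x -
          4525750661892893433) ^ 2 := by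
        rw [← hm]
        ring
      rw [hE] at h3
      linear_combination 2 * h3
    have h4 := (mul_eq_zero.1 h2).resolve_left hx
    linarith
  have h := nm m
  have e : bp x m ^ 2 * bn m ^ 2 = (2 * (393129 * bk m ^ 2 - 25921)) * bn m ^ 2 := by
    have e1 : bp x m ^ 2 * bn m ^ 2 = (2 * (26733213090738 * m ^ 2 + 7111396218234 * m +
        205603385295 - x)) ^ 2 / 588621957 ^ 2 := by
      unfold bp
      field_simp
    have e2 : (2 * (393129 * bk m ^ 2 - 25921)) * bn m ^ 2 =
        2 * (154550410641 * (49 * m ^ 2 + 20 * m + 2) ^ 2 - 671898241 * bn m ^ 2) / 25921 := by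
      unfold bk
      field_simp
      ring
    rw [e1, e2]
    unfold bn
    linear_combination (2 / 588621957 ^ 2) * h1
  exact mul_right_cancel₀ (pow_ne_zero 2 h) e

private theorem ns0 : (WI ℚ 155222308882 103842149055515582481).toAffine.Nonsingular
    ((2278575684 : ℤ) : ℚ) ((1026811649798550 : ℤ) : ℚ) :=
  WI_nonsing _ _ (by norm_num) _ _ (by norm_num)

private theorem not_fin : ¬ IsOfFinAddOrder
    (Affine.Point.some _ _ ns0 : (WI ℚ 155222308882 103842149055515582481).toAffine.Point) := by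
  obtain ⟨f, hf⟩ := WI_rdn 155222308882 103842149055515582481 31 (by norm_num)
  obtain ⟨g, hg⟩ := WI_rdn 155222308882 103842149055515582481 13 (by norm_num)
  refine inf_of (by norm_num) hf hg (by rw [cardE13]; norm_num) (by rw [cardE31]; norm_num)
    (n := 8) (by rw [cardE13, cardE31]; decide) _ ?_
  obtain ⟨h', e⟩ := hf.red _ _ ns0 _ _ (Cg.of_int _) (Cg.of_int _)
  rw [e]
  exact kE h'

private theorem st_of (x y : ℚ)
    (hE : y ^ 2 = x ^ 3 + 155222308882 * x ^ 2 + 103842149055515582481 * x)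
    (c : ∀ (p : ℕ) [Fact p.Prime], p ∈ ({37, 41, 47, 59, 67, 79, 97} : Finset ℕ) →
      Cg p x ((2278575684 : ℤ) : ZMod p) ∧ Cg p y ((1026811649798550 : ℤ) : ZMod p)) :
    49 * x - 18592300510641 ≠ 0 ∧ St24 (bk (bm x y)) (bp x (bm x y)) (bq (bm x y)) := by
  have hx : 49 * x - 18592300510641 ≠ 0 := by
    have h37 := (c 37 (by decide)).1
    exact ((Cg.mul (Cg.ofNat 49) h37).sub (Cg.ofNat 18592300510641)).ne_zero (by decide +kernel)
  have hm : 7 * y = bm x y * (1044582 * (49 * x - 18592300510641)) + 6807887 * x -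
      4525750661892893433 := by
    have h9 : 1044582 * (49 * x - 18592300510641) ≠ 0 := mul_ne_zero (by norm_num) hx
    have h10 := div_mul_cancel₀ (7 * y - 6807887 * x + 4525750661892893433) h9
    unfold bm
    linear_combination -h10
  have c37 := c 37 (by decide)
  have m37 := cgm c37.1 c37.2 (by decide +kernel)
  have c41 := c 41 (by decide)
  have m41 := cgm c41.1 c41.2 (by decide +kernel)
  have c47 := c 47 (by decide)
  have m47 := cgm c47.1 c47.2 (by decide +kernel)
  have c59 := c 59 (by decide)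
  have m59 := cgm c59.1 c59.2 (by decide +kernel)
  have c67 := c 67 (by decide)
  have m67 := cgm c67.1 c67.2 (by decide +kernel)
  have c79 := c 79 (by decide)
  have m79 := cgm c79.1 c79.2 (by decide +kernel)
  have c97 := c 97 (by decide)
  have m97 := cgm c97.1 c97.2 (by decide +kernel)
  exact ⟨hx,
  { e1 := eq_p hE hx hm
    e2 := eq_q _
    k37 := cgc (cgk m37 (by decide +kernel)) (by decide +kernel)
    p37 := cgc (cgp c37.1 m37 (by decide +kernel)) (by decide +kernel)
    q37 := cgc (cgq m37 (by decide +kernel)) (by decide +kernel)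
    k41 := cgc (cgk m41 (by decide +kernel)) (by decide +kernel)
    p41 := cgc (cgp c41.1 m41 (by decide +kernel)) (by decide +kernel)
    q41 := cgc (cgq m41 (by decide +kernel)) (by decide +kernel)
    k47 := cgc (cgk m47 (by decide +kernel)) (by decide +kernel)
    p47 := cgc (cgp c47.1 m47 (by decide +kernel)) (by decide +kernel)
    q47 := cgc (cgq m47 (by decide +kernel)) (by decide +kernel)
    k59 := cgc (cgk m59 (by decide +kernel)) (by decide +kernel)
    p59 := cgc (cgp c59.1 m59 (by decide +kernel)) (by decide +kernel)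
    q59 := cgc (cgq m59 (by decide +kernel)) (by decide +kernel)
    k67 := cgc (cgk m67 (by decide +kernel)) (by decide +kernel)
    p67 := cgc (cgp c67.1 m67 (by decide +kernel)) (by decide +kernel)
    q67 := cgc (cgq m67 (by decide +kernel)) (by decide +kernel)
    k79 := cgc (cgk m79 (by decide +kernel)) (by decide +kernel)
    p79 := cgc (cgp c79.1 m79 (by decide +kernel)) (by decide +kernel)
    q79 := cgc (cgq m79 (by decide +kernel)) (by decide +kernel)
    k97 := cgc (cgk m97 (by decide +kernel)) (by decide +kernel)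
    p97 := cgc (cgp c97.1 m97 (by decide +kernel)) (by decide +kernel)
    q97 := cgc (cgq m97 (by decide +kernel)) (by decide +kernel) }⟩

private theorem fin_cubic (a b c d : ℚ) (h : a ≠ 0 ∨ b ≠ 0 ∨ c ≠ 0 ∨ d ≠ 0) :
    {x : ℚ | a * x ^ 3 + b * x ^ 2 + c * x + d = 0}.Finite := by
  have h0 : (⟨a, b, c, d⟩ : Cubic ℚ).toPoly ≠ 0 := by
    rcases h with h | h | h | h
    · exact Cubic.ne_zero_of_a_ne_zero h
    · exact Cubic.ne_zero_of_b_ne_zero h
    · exact Cubic.ne_zero_of_c_ne_zero h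
    · exact Cubic.ne_zero_of_d_ne_zero h
  refine (Polynomial.finite_setOfPred_isRoot h0).subset ?_
  intro x hx
  simpa [Polynomial.IsRoot, Cubic.toPoly] using hx

private theorem fin_fibre (a : ℚ) : {q : ℚ × ℚ | q.2 ^ 2 = q.1 ^ 3 + 155222308882 * q.1 ^ 2 +
    103842149055515582481 * q.1 ∧ 49 * q.1 - 18592300510641 ≠ 0 ∧
    bk (bm q.1 q.2) ^ 2 = a}.Finite := by
  have hU : {u : ℚ | 0 * u ^ 3 + 1 * u ^ 2 + 0 * u + (-a) = 0}.Finite := by
    apply fin_cubic
    right; left; norm_num
  have hM : ∀ u : ℚ, {m : ℚ | 0 * m ^ 3 + (100947 * u + 30723) * m ^ 2 + (47012 * u + 12540) * m +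
      (5474 * u + 1254) = 0}.Finite := by
    intro u
    apply fin_cubic
    right
    by_cases h1 : 100947 * u + 30723 = 0
    · right; right
      intro h2
      linarith
    · left
      exact h1
  have hX : ∀ m : ℚ, {x : ℚ | 49 * x ^ 3 + (49 * 155222308882 - (51184518 * m + 6807887) ^ 2) * x ^ 2 +
      (49 * 103842149055515582481 + 2 * (51184518 * m + 6807887) *
        (19421182452006397062 * m + 4525750661892893433)) * x +
      (-(19421182452006397062 * m + 4525750661892893433) ^ 2) = 0}.Finite := by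
    intro m
    apply fin_cubic
    left; norm_num
  have hfin := hU.biUnion (fun u _ => (hM u).biUnion (fun m _ =>
    (hX m).image (fun x => ((x, (m * (1044582 * (49 * x - 18592300510641)) + 6807887 * x -
      4525750661892893433) / 7) : ℚ × ℚ))))
  refine hfin.subset ?_
  rintro ⟨x, y⟩ ⟨hE, h1, h4⟩
  simp only at hE h1 h4
  have hm : 7 * y = bm x y * (1044582 * (49 * x - 18592300510641)) + 6807887 * x -
      4525750661892893433 := by
    have h9 : 1044582 * (49 * x - 18592300510641) ≠ 0 := mul_ne_zero (by norm_num) h1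
    have h10 := div_mul_cancel₀ (7 * y - 6807887 * x + 4525750661892893433) h9
    unfold bm
    linear_combination -h10
  simp only [Set.mem_iUnion]
  refine ⟨bk (bm x y), ?_, bm x y, ?_, x, ?_, ?_⟩
  · simp only [Set.mem_ofPred_eq]
    linear_combination h4
  · have h5 : bk (bm x y) * (161 * bn (bm x y)) =
        -(627 * (49 * bm x y ^ 2 + 20 * bm x y + 2)) := by
      unfold bk
      exact div_mul_cancel₀ _ (mul_ne_zero (by norm_num) (nm _))
    unfold bn at h5
    simp only [Set.mem_ofPred_eq]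
    linear_combination h5
  · simp only [Set.mem_ofPred_eq]
    generalize bm x y = m at *
    have h3 : 49 * y ^ 2 = (m * (1044582 * (49 * x - 18592300510641)) + 6807887 * x -
        4525750661892893433) ^ 2 := by
      rw [← hm]
      ring
    rw [hE] at h3
    linear_combination h3
  · simp only [Prod.mk.injEq, true_and]
    rw [← hm]
    ring

open Polynomial in
private theorem fin_j (j0 : ℚ) : {a : ℚ | (F24 ℚ a).c₄ ^ 3 = j0 * (F24 ℚ a).Δ}.Finite := by
  let EX : WeierstrassCurve ℚ[X] :=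
    ⟨0, 2 * (25921 * (X + 1) ^ 2 + 334084 * X), 0, (25921 * (X + 1) ^ 2 - 334084 * X) ^ 2, 0⟩
  have hmap : ∀ r : ℚ, EX.map (Polynomial.evalRingHom r) = F24 ℚ r := by
    intro r
    simp [EX, F24, WeierstrassCurve.map]
  have hc : ∀ r : ℚ, (F24 ℚ r).c₄ = EX.c₄.eval r := by
    intro r
    rw [← hmap r, WeierstrassCurve.map_c₄]
    rfl
  have hd : ∀ r : ℚ, (F24 ℚ r).Δ = EX.Δ.eval r := by
    intro r
    rw [← hmap r, WeierstrassCurve.map_Δ]
    rfl
  have hne : EX.c₄ ^ 3 - C j0 * EX.Δ ≠ 0 := by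
    intro h0
    have h1 := congrArg (Polynomial.eval 0) h0
    rw [eval_sub, eval_pow, eval_mul, eval_C, ← hc 0, ← hd 0, F24_Δ] at h1
    norm_num [F24, WeierstrassCurve.c₄, WeierstrassCurve.b₂, WeierstrassCurve.b₄] at h1
  refine (Polynomial.finite_setOfPred_isRoot hne).subset ?_
  intro r hr
  have h2 : (F24 ℚ r).c₄ ^ 3 = j0 * (F24 ℚ r).Δ := hr
  show Polynomial.eval r (EX.c₄ ^ 3 - C j0 * EX.Δ) = 0
  rw [eval_sub, eval_pow, eval_mul, eval_C, ← hc r, ← hd r, h2, sub_self]

end aux

theorem base24 : Set.Infinite {a : ℚ | ∃ k p q : ℚ, k ^ 2 = a ∧ St24 k p q} := by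
  obtain ⟨x, y, hinj, hE, hc⟩ := orbit 155222308882 103842149055515582481 2278575684
    1026811649798550 ns0 not_fin {37, 41, 47, 59, 67, 79, 97} (by
      intro p hp
      fin_cases hp <;> norm_num)
  have hE' : ∀ n, y n ^ 2 = x n ^ 3 + 155222308882 * x n ^ 2 + 103842149055515582481 * x n := by
    intro n
    have h := hE n
    push_cast at h
    exact h
  have hst := fun n => st_of (x n) (y n) (hE' n) (fun p _ hp => hc p hp n)
  intro hfin
  refine Set.infinite_range_of_injective hinj ?_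
  refine (hfin.biUnion (fun a _ => fin_fibre a)).subset ?_
  rintro _ ⟨n, rfl⟩
  simp only [Set.mem_iUnion]
  exact ⟨bk (bm (x n) (y n)) ^ 2, ⟨_, _, _, rfl, (hst n).2⟩, hE' n, (hst n).1, rfl⟩

theorem final24 : Set.Infinite {j : ℚ | ∃ (E : WeierstrassCurve ℚ) (_ : E.IsElliptic),
    E.j = j ∧ Nonempty (AddCommGroup.torsion E.toAffine.Point ≃+ ZMod 2 × ZMod 4) ∧
    6 ≤ Module.rank ℤ E.toAffine.Point} := by
  intro hfin
  apply base24
  refine (hfin.biUnion (fun j0 _ => fin_j j0)).subset ?_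
  rintro _ ⟨k, p, q, rfl, h⟩
  have hΔ := F24_ell (okS h)
  have hE : (F24 ℚ (k ^ 2)).IsElliptic := ⟨isUnit_iff_ne_zero.2 hΔ⟩
  simp only [Set.mem_iUnion]
  refine ⟨(F24 ℚ (k ^ 2)).j, ⟨F24 ℚ (k ^ 2), hE, rfl, tor24 h, rank24 h⟩, ?_⟩
  have h1 : (F24 ℚ (k ^ 2)).j * (F24 ℚ (k ^ 2)).Δ = (F24 ℚ (k ^ 2)).c₄ ^ 3 := by
    rw [WeierstrassCurve.j, ← WeierstrassCurve.coe_Δ', mul_comm, ← mul_assoc, Units.mul_inv,
      one_mul]
  exact h1.symm

end Pool.Agent.InfV
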