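import Pool.Agent.InfV.Num24
import Pool.Agent.RkT.Line

/-!
# Torsion group ℤ/2 × ℤ/4 and rank at least 6: torsion and rank of the curves
-/

set_option autoImplicit false

namespace Pool.Agent.InfV

open WeierstrassCurve Pool.Agent.InfR Pool.Agent.InfS

theorem okS {k p q : ℚ} (h : St24 k p q) : Ok24 k p q := ok24 h.k37 h.p37 h.q37 ok37

theorem m41 {k p q : ℚ} (h : St24 k p q) (n : Fin 6 → ℤ)
    (hn : ∑ i, n i • (.some _ _ (F24_pt h (okS h) i) : (F24 ℚ (k ^ 2)).toAffine.Point) = 0) :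
    (3 : ℤ) ∣ ∑ i, n i * (![1, 1, 2, 0, 1, 0] : Fin 6 → ℤ) i := by
  obtain ⟨f, hf⟩ := F24_rdn (h.k41.pow 2) (by decide +kernel)
  exact red_one hf (F24_pt h (okS h))
    (cgX24 h.k41 h.p41 h.q41 ok41)
    (cgY24 h.k41 h.p41 h.q41 ok41)
    16 _ k41 n hn

theorem m47 {k p q : ℚ} (h : St24 k p q) (n : Fin 6 → ℤ)
    (hn : ∑ i, n i • (.some _ _ (F24_pt h (okS h) i) : (F24 ℚ (k ^ 2)).toAffine.Point) = 0) :
    (3 : ℤ) ∣ ∑ i, n i * (![0, 1, 2, 1, 1, 0] : Fin 6 → ℤ) i := by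
  obtain ⟨f, hf⟩ := F24_rdn (h.k47.pow 2) (by decide +kernel)
  exact red_one hf (F24_pt h (okS h))
    (cgX24 h.k47 h.p47 h.q47 ok47)
    (cgY24 h.k47 h.p47 h.q47 ok47)
    16 _ k47 n hn

theorem m59 {k p q : ℚ} (h : St24 k p q) (n : Fin 6 → ℤ)
    (hn : ∑ i, n i • (.some _ _ (F24_pt h (okS h) i) : (F24 ℚ (k ^ 2)).toAffine.Point) = 0) :
    (3 : ℤ) ∣ ∑ i, n i * (![0, 0, 1, 1, 2, 2] : Fin 6 → ℤ) i := by
  obtain ⟨f, hf⟩ := F24_rdn (h.k59.pow 2) (by decide +kernel)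
  exact red_one hf (F24_pt h (okS h))
    (cgX24 h.k59 h.p59 h.q59 ok59)
    (cgY24 h.k59 h.p59 h.q59 ok59)
    24 _ k59 n hn

theorem m67 {k p q : ℚ} (h : St24 k p q) (n : Fin 6 → ℤ)
    (hn : ∑ i, n i • (.some _ _ (F24_pt h (okS h) i) : (F24 ℚ (k ^ 2)).toAffine.Point) = 0) :
    (3 : ℤ) ∣ ∑ i, n i * (![1, 1, 1, 1, 1, 1] : Fin 6 → ℤ) i := by
  obtain ⟨f, hf⟩ := F24_rdn (h.k67.pow 2) (by decide +kernel)
  exact red_one hf (F24_pt h (okS h))
    (cgX24 h.k67 h.p67 h.q67 ok67)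
    (cgY24 h.k67 h.p67 h.q67 ok67)
    24 _ k67 n hn

theorem m79 {k p q : ℚ} (h : St24 k p q) (n : Fin 6 → ℤ)
    (hn : ∑ i, n i • (.some _ _ (F24_pt h (okS h) i) : (F24 ℚ (k ^ 2)).toAffine.Point) = 0) :
    (3 : ℤ) ∣ ∑ i, n i * (![1, 1, 1, 0, 1, 2] : Fin 6 → ℤ) i := by
  obtain ⟨f, hf⟩ := F24_rdn (h.k79.pow 2) (by decide +kernel)
  exact red_one hf (F24_pt h (okS h))
    (cgX24 h.k79 h.p79 h.q79 ok79)
    (cgY24 h.k79 h.p79 h.q79 ok79)
    32 _ k79 n hn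

theorem m97 {k p q : ℚ} (h : St24 k p q) (n : Fin 6 → ℤ)
    (hn : ∑ i, n i • (.some _ _ (F24_pt h (okS h) i) : (F24 ℚ (k ^ 2)).toAffine.Point) = 0) :
    (3 : ℤ) ∣ ∑ i, n i * (![1, 1, 0, 1, 2, 2] : Fin 6 → ℤ) i := by
  obtain ⟨f, hf⟩ := F24_rdn (h.k97.pow 2) (by decide +kernel)
  exact red_one hf (F24_pt h (okS h))
    (cgX24 h.k97 h.p97 h.q97 ok97)
    (cgY24 h.k97 h.p97 h.q97 ok97)
    32 _ k97 n hn

theorem n_dvd {k p q : ℚ} (h : St24 k p q) (n : Fin 6 → ℤ)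
    (hn : ∑ i, n i • (.some _ _ (F24_pt h (okS h) i) : (F24 ℚ (k ^ 2)).toAffine.Point) = 0) :
    ∀ i, (3 : ℤ) ∣ n i := by
  have h41 := m41 h n hn
  have h47 := m47 h n hn
  have h59 := m59 h n hn
  have h67 := m67 h n hn
  have h79 := m79 h n hn
  have h97 := m97 h n hn
  have g0 : (3 : ℤ) ∣ n 0 + n 1 + n 2 * 2 + n 4 := by
    have e := h41
    rw [Fin.sum_univ_six] at e
    simp at e
    omega
  have g1 : (3 : ℤ) ∣ n 1 + n 2 * 2 + n 3 + n 4 := by
    have e := h47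
    rw [Fin.sum_univ_six] at e
    simp at e
    omega
  have g2 : (3 : ℤ) ∣ n 2 + n 3 + n 4 * 2 + n 5 * 2 := by
    have e := h59
    rw [Fin.sum_univ_six] at e
    simp at e
    omega
  have g3 : (3 : ℤ) ∣ n 0 + n 1 + n 2 + n 3 + n 4 + n 5 := by
    have e := h67
    rw [Fin.sum_univ_six] at e
    simp at e
    omega
  have g4 : (3 : ℤ) ∣ n 0 + n 1 + n 2 + n 4 + n 5 * 2 := by
    have e := h79
    rw [Fin.sum_univ_six] at e
    simp at e
    omega
  have g5 : (3 : ℤ) ∣ n 0 + n 1 + n 3 + n 4 * 2 + n 5 * 2 := by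
    have e := h97
    rw [Fin.sum_univ_six] at e
    simp at e
    omega
  intro i
  fin_cases i
  · show (3 : ℤ) ∣ n 0
    omega
  · show (3 : ℤ) ∣ n 1
    omega
  · show (3 : ℤ) ∣ n 2
    omega
  · show (3 : ℤ) ∣ n 3
    omega
  · show (3 : ℤ) ∣ n 4
    omega
  · show (3 : ℤ) ∣ n 5
    omega

theorem F24_torp {k p q : ℚ} (h : St24 k p q) : (F24 ℚ (k ^ 2)).toAffine.Nonsingular
    (25921 * (k ^ 2 + 1) ^ 2 - 334084 * k ^ 2)
    (322 * (k ^ 2 + 1) * (25921 * (k ^ 2 + 1) ^ 2 - 334084 * k ^ 2)) := by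
  refine F24_ns (okS h) ?_
  ring

theorem F24_zero {k p q : ℚ} (h : St24 k p q) : (F24 ℚ (k ^ 2)).toAffine.Nonsingular 0 0 := by
  refine F24_ns (okS h) ?_
  ring

theorem F24_two {k p q : ℚ} (h : St24 k p q) : (F24 ℚ (k ^ 2)).toAffine.Nonsingular
    (-(161 * k ^ 2 - 578 * k + 161) ^ 2) 0 := by
  refine F24_ns (okS h) ?_
  ring

theorem zero_two {k p q : ℚ} (h : St24 k p q) :
    (Affine.Point.some _ _ (F24_zero h) : (F24 ℚ (k ^ 2)).toAffine.Point) +
      Affine.Point.some _ _ (F24_zero h) = 0 := by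
  refine Affine.Point.add_of_Y_eq rfl ?_
  simp [Affine.negY, F24]

theorem two_two {k p q : ℚ} (h : St24 k p q) :
    (Affine.Point.some _ _ (F24_two h) : (F24 ℚ (k ^ 2)).toAffine.Point) +
      Affine.Point.some _ _ (F24_two h) = 0 := by
  refine Affine.Point.add_of_Y_eq rfl ?_
  simp [Affine.negY, F24]

theorem two_tor {k p q : ℚ} (h : St24 k p q) :
    2 • (Affine.Point.some _ _ (F24_torp h) : (F24 ℚ (k ^ 2)).toAffine.Point) =
      Affine.Point.some _ _ (F24_zero h) := by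
  have h1 : (Affine.Point.some _ _ (F24_torp h) : (F24 ℚ (k ^ 2)).toAffine.Point) +
      Affine.Point.some _ _ (F24_torp h) + Affine.Point.some _ _ (F24_zero h) = 0 := by
    refine RkT.line_sum (l := 322 * (k ^ 2 + 1)) (n := 0) _ _ _ ?_ ?_ ?_ ⟨?_, ?_, ?_⟩
    · ring
    · ring
    · ring
    · simp only [F24]
      ring
    · simp only [F24]
      ring
    · simp only [F24]
      ring
  rw [two_nsmul, eq_neg_of_add_eq_zero_left h1, neg_eq_of_add_eq_zero_left (zero_two h)]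

theorem tor_card {k p q : ℚ} (h : St24 k p q) :
    Finite (AddCommGroup.torsion (F24 ℚ (k ^ 2)).toAffine.Point) ∧
      Nat.card (AddCommGroup.torsion (F24 ℚ (k ^ 2)).toAffine.Point) ∣ 8 := by
  obtain ⟨f, hf⟩ := F24_rdn (h.k37.pow 2) (by decide +kernel)
  obtain ⟨g, hg⟩ := F24_rdn (h.k41.pow 2) (by decide +kernel)
  obtain ⟨h1, h2, h3⟩ := torsion_dvd (by norm_num) hf hg (by rw [card41]; norm_num)
    (by rw [card37]; norm_num)
  rw [card37] at h2
  rw [card41] at h3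
  exact ⟨h1, Nat.dvd_gcd h2 h3⟩

private theorem even_of {G : Type*} [AddCommGroup G] {Z : G} (h2 : (2 : ℤ) • Z = 0) (hZ : Z ≠ 0)
    {m : ℤ} (h : m • Z = 0) : m % 2 = 0 := by
  rcases Int.emod_two_eq_zero_or_one m with h0 | h0
  · exact h0
  · exfalso
    apply hZ
    have e : m • Z = (m % 2) • Z := by
      conv_lhs => rw [← Int.emod_add_mul_ediv m 2, add_smul, mul_comm, mul_smul, h2, smul_zero,
        add_zero]
    rw [h0, one_smul, h] at e
    exact e.symm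

theorem tor_str {G : Type*} [AddCommGroup G] [Finite G] (hc : Nat.card G ∣ 8)
    (A T Z : G) (hA : 2 • A = 0) (hZ : 2 • Z = 0) (hT : 2 • T = Z) (nA : A ≠ 0) (nZ : Z ≠ 0)
    (nAZ : A ≠ Z) : Nonempty (G ≃+ ZMod 2 × ZMod 4) := by
  have hzA : (2 : ℤ) • A = 0 := by exact_mod_cast hA
  have hzZ : (2 : ℤ) • Z = 0 := by exact_mod_cast hZ
  have hzT : (2 : ℤ) • T = Z := by exact_mod_cast hT
  have hA' : (zmultiplesHom G A) ((2 : ℕ) : ℤ) = 0 := by
    rw [zmultiplesHom_apply, natCast_zsmul, hA]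
  have hT' : (zmultiplesHom G T) ((4 : ℕ) : ℤ) = 0 := by
    rw [zmultiplesHom_apply, natCast_zsmul, show (4 : ℕ) = 2 * 2 from rfl, mul_smul, hT, hZ]
  let φ : ZMod 2 × ZMod 4 →+ G :=
    (ZMod.lift 2 ⟨zmultiplesHom G A, hA'⟩).coprod (ZMod.lift 4 ⟨zmultiplesHom G T, hT'⟩)
  have hφ : ∀ k m : ℤ, φ ((k : ZMod 2), (m : ZMod 4)) = k • A + m • T := by
    intro k m
    change ZMod.lift 2 ⟨zmultiplesHom G A, hA'⟩ (k : ZMod 2) +
      ZMod.lift 4 ⟨zmultiplesHom G T, hT'⟩ (m : ZMod 4) = _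
    rw [ZMod.lift_coe, ZMod.lift_coe]
    rfl
  have hinj : Function.Injective φ := by
    rw [injective_iff_map_eq_zero]
    rintro ⟨a, b⟩ hab
    obtain ⟨k, rfl⟩ := ZMod.intCast_surjective a
    obtain ⟨m, rfl⟩ := ZMod.intCast_surjective b
    rw [hφ] at hab
    have h1 : m • Z = 0 := by
      have e : (2 : ℤ) • (k • A + m • T) = k • ((2 : ℤ) • A) + m • ((2 : ℤ) • T) := by
        module
      rw [hab, hzA, hzT, smul_zero, smul_zero, zero_add] at e
      exact e.symm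
    have h2 := even_of hzZ nZ h1
    obtain ⟨m', rfl⟩ : (2 : ℤ) ∣ m := Int.dvd_of_emod_eq_zero h2
    have h4 : k • A + m' • Z = 0 := by
      have e : k • A + (2 * m') • T = k • A + m' • ((2 : ℤ) • T) := by
        module
      rw [hab, hzT] at e
      exact e.symm
    have hk : k • A = (k % 2) • A := by
      conv_lhs => rw [← Int.emod_add_mul_ediv k 2, add_smul, mul_comm, mul_smul, hzA, smul_zero,
        add_zero]
    have hm : m' • Z = (m' % 2) • Z := by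
      conv_lhs => rw [← Int.emod_add_mul_ediv m' 2, add_smul, mul_comm, mul_smul, hzZ, smul_zero,
        add_zero]
    rw [hk, hm] at h4
    have h5 : k % 2 = 0 ∧ m' % 2 = 0 := by
      rcases Int.emod_two_eq_zero_or_one k with hk2 | hk2 <;>
        rcases Int.emod_two_eq_zero_or_one m' with hm2 | hm2
      · exact ⟨hk2, hm2⟩
      · rw [hk2, hm2, zero_smul, one_smul, zero_add] at h4
        exact absurd h4 nZ
      · rw [hk2, hm2, zero_smul, one_smul, add_zero] at h4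
        exact absurd h4 nA
      · rw [hk2, hm2, one_smul, one_smul] at h4
        exfalso
        apply nAZ
        have h6 : Z + Z = 0 := by rw [← two_nsmul, hZ]
        rw [eq_neg_of_add_eq_zero_left h4, ← eq_neg_of_add_eq_zero_left h6]
    obtain ⟨h5, h6⟩ := h5
    refine Prod.ext ?_ ?_
    · change ((k : ℤ) : ZMod 2) = 0
      rw [ZMod.intCast_zmod_eq_zero_iff_dvd]
      exact_mod_cast Int.dvd_of_emod_eq_zero h5
    · change ((2 * m' : ℤ) : ZMod 4) = 0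
      rw [ZMod.intCast_zmod_eq_zero_iff_dvd]
      push_cast
      omega
  have hcard : Nat.card (ZMod 2 × ZMod 4) = 8 := by
    rw [Nat.card_prod, Nat.card_zmod, Nat.card_zmod]
  have hb : Function.Bijective φ := by
    have := (Nat.bijective_iff_injective_and_card φ).2
    apply this
    refine ⟨hinj, ?_⟩
    rw [hcard]
    have h1 := Nat.card_le_card_of_injective φ hinj
    rw [hcard] at h1
    have h2 := Nat.le_of_dvd (by norm_num) hc
    omega
  exact ⟨(AddEquiv.ofBijective φ hb).symm⟩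

theorem tor24 {k p q : ℚ} (h : St24 k p q) :
    Nonempty (AddCommGroup.torsion (F24 ℚ (k ^ 2)).toAffine.Point ≃+ ZMod 2 × ZMod 4) := by
  obtain ⟨h1, h2⟩ := tor_card h
  have z2 : 2 • (Affine.Point.some _ _ (F24_zero h) : (F24 ℚ (k ^ 2)).toAffine.Point) = 0 := by
    rw [two_nsmul, zero_two h]
  have a2 : 2 • (Affine.Point.some _ _ (F24_two h) : (F24 ℚ (k ^ 2)).toAffine.Point) = 0 := by
    rw [two_nsmul, two_two h]
  have t4 : 4 • (Affine.Point.some _ _ (F24_torp h) : (F24 ℚ (k ^ 2)).toAffine.Point) = 0 := by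
    rw [show (4 : ℕ) = 2 * 2 from rfl, mul_smul, two_tor h, z2]
  refine tor_str h2
    ⟨Affine.Point.some _ _ (F24_two h), isOfFinAddOrder_iff_nsmul_eq_zero.2
      ⟨2, by norm_num, a2⟩⟩
    ⟨Affine.Point.some _ _ (F24_torp h), isOfFinAddOrder_iff_nsmul_eq_zero.2
      ⟨4, by norm_num, t4⟩⟩
    ⟨Affine.Point.some _ _ (F24_zero h), isOfFinAddOrder_iff_nsmul_eq_zero.2
      ⟨2, by norm_num, z2⟩⟩ ?_ ?_ ?_ ?_ ?_ ?_
  · exact Subtype.ext a2
  · exact Subtype.ext z2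
  · exact Subtype.ext (two_tor h)
  · exact fun hc => Affine.Point.some_ne_zero _ (congrArg Subtype.val hc)
  · exact fun hc => Affine.Point.some_ne_zero _ (congrArg Subtype.val hc)
  · intro hc
    have hc' := congrArg Subtype.val hc
    injection hc' with e1
    have e2 : (161 * k ^ 2 - 578 * k + 161) = 0 := by
      have e3 : (161 * k ^ 2 - 578 * k + 161) ^ 2 = 0 := by linarith
      exact pow_eq_zero_iff (by norm_num) |>.1 e3
    apply (okS h).nd
    linear_combination (161 * k ^ 2 + 578 * k + 161) * e2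

theorem tor_three {k p q : ℚ} (h : St24 k p q) (x : (F24 ℚ (k ^ 2)).toAffine.Point)
    (hx : 3 • x = 0) : x = 0 := by
  obtain ⟨hF, hd⟩ := tor_card h
  obtain ⟨c, hc⟩ := hd
  have hfin : IsOfFinAddOrder x := isOfFinAddOrder_iff_nsmul_eq_zero.2 ⟨3, by norm_num, hx⟩
  have e1 : 8 • (⟨x, hfin⟩ : AddCommGroup.torsion (F24 ℚ (k ^ 2)).toAffine.Point) = 0 := by
    rw [hc, mul_nsmul, card_nsmul_eq_zero', nsmul_zero]
  have e2 : 8 • x = 0 := congrArg Subtype.val e1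
  have e3 : x = 3 • (3 • x) - 8 • x := by
    have : 3 • (3 • x) = 8 • x + x := by
      rw [← mul_smul]
      exact succ_nsmul x 8
    rw [this]
    abel
  rw [e3, e2, hx]
  simp

theorem rank24 {k p q : ℚ} (h : St24 k p q) :
    6 ≤ Module.rank ℤ (F24 ℚ (k ^ 2)).toAffine.Point := by
  have : Fact (Nat.Prime 3) := ⟨Nat.prime_three⟩
  have hli : LinearIndependent ℤ
      (fun i : Fin 6 => (.some _ _ (F24_pt h (okS h) i) : (F24 ℚ (k ^ 2)).toAffine.Point)) := by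
    refine indep 3 _ (fun i : Fin 0 => i.elim0) ?_ ?_
    · intro x hx
      refine ⟨fun i => i.elim0, ?_⟩
      rw [tor_three h x hx]
      simp
    · intro n c hrel
      rw [Fin.sum_univ_zero, add_zero] at hrel
      exact ⟨n_dvd h n hrel, fun i => i.elim0⟩
  have h1 := hli.cardinal_le_rank
  rw [Cardinal.mk_fin] at h1
  exact_mod_cast h1

end Pool.Agent.InfV
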