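import Pool.Agent.InfV.T24

/-!
# Torsion group ℤ/2 × ℤ/4 and rank at least 6: computations over small prime fields
-/

set_option autoImplicit false

namespace Pool.Agent.InfV

open WeierstrassCurve Pool.Agent.InfR Pool.Agent.InfS

theorem card_aux {p : ℕ} [Fact p.Prime] (V : WeierstrassCurve (ZMod p)) (N : ℕ)
    (h : ((Finset.univ : Finset (ZMod p × ZMod p)).filter (fun xy =>
      (xy.2 ^ 2 + V.a₁ * xy.1 * xy.2 + V.a₃ * xy.2 =
        xy.1 ^ 3 + V.a₂ * xy.1 ^ 2 + V.a₄ * xy.1 + V.a₆) ∧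
      (V.a₁ * xy.2 ≠ 3 * xy.1 ^ 2 + 2 * V.a₂ * xy.1 + V.a₄ ∨
        xy.2 ≠ -xy.2 - V.a₁ * xy.1 - V.a₃))).card + 1 = N) :
    Nat.card V.toAffine.Point = N := by
  let e : V.toAffine.Point ≃ Option {xy : ZMod p × ZMod p // V.toAffine.Nonsingular xy.1 xy.2} :=
    { toFun := fun P => match P with
        | .zero => none
        | .some x y h => some ⟨(x, y), h⟩
      invFun := fun q => match q with
        | none => .zero
        | some a => .some a.1.1 a.1.2 a.2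
      left_inv := by
        intro P
        cases P <;> rfl
      right_inv := by
        intro q
        cases q <;> rfl }
  rw [Nat.card_congr e, Finite.card_option, ← h]
  congr 1
  refine Nat.subtype_card _ ?_
  intro xy
  rw [Affine.nonsingular_iff, Affine.equation_iff, Finset.mem_filter]
  exact ⟨fun h1 => h1.2, fun h1 => ⟨Finset.mem_univ _, h1⟩⟩

theorem ok37 : Ok24 (23 : ZMod 37) 34 29 := by
  constructor <;> decide +kernel

theorem ok41 : Ok24 (7 : ZMod 41) 21 12 := by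
  constructor <;> decide +kernel

theorem ok47 : Ok24 (21 : ZMod 47) 35 27 := by
  constructor <;> decide +kernel

theorem ok59 : Ok24 (46 : ZMod 59) 57 7 := by
  constructor <;> decide +kernel

theorem ok67 : Ok24 (52 : ZMod 67) 44 53 := by
  constructor <;> decide +kernel

theorem ok79 : Ok24 (30 : ZMod 79) 49 19 := by
  constructor <;> decide +kernel

theorem ok97 : Ok24 (80 : ZMod 97) 2 89 := by
  constructor <;> decide +kernel

private theorem ns41 (i : Fin 6) : (F24 (ZMod 41) (7 ^ 2)).toAffine.Nonsingular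
    (X24 7 21 12 i) (Y24 7 21 12 i) := by
  rw [Affine.nonsingular_iff, Affine.equation_iff]
  revert i
  decide +kernel

theorem k41 (h' : ∀ i, (F24 (ZMod 41) (7 ^ 2)).toAffine.Nonsingular (X24 7 21 12 i)
    (Y24 7 21 12 i)) : ∃ g : (F24 (ZMod 41) (7 ^ 2)).toAffine.Point, g ≠ 0 ∧ 3 • g = 0 ∧
      ∀ i, 16 • (.some _ _ (h' i) : (F24 (ZMod 41) (7 ^ 2)).toAffine.Point) =
        (![1, 1, 2, 0, 1, 0] : Fin 6 → ℤ) i • g := by
  have key : 16 • (.some _ _ (ns41 0) : (F24 (ZMod 41) (7 ^ 2)).toAffine.Point) ≠ 0 ∧ 3 • (16 • (.some _ _ (ns41 0) : (F24 (ZMod 41) (7 ^ 2)).toAffine.Point)) = 0 ∧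
      ∀ i, 16 • (.some _ _ (ns41 i) : (F24 (ZMod 41) (7 ^ 2)).toAffine.Point) =
        (![1, 1, 2, 0, 1, 0] : Fin 6 → ℤ) i • (16 • (.some _ _ (ns41 0) : (F24 (ZMod 41) (7 ^ 2)).toAffine.Point)) := by
    decide +kernel
  exact ⟨_, key⟩

private theorem ns47 (i : Fin 6) : (F24 (ZMod 47) (21 ^ 2)).toAffine.Nonsingular
    (X24 21 35 27 i) (Y24 21 35 27 i) := by
  rw [Affine.nonsingular_iff, Affine.equation_iff]
  revert i
  decide +kernel

theorem k47 (h' : ∀ i, (F24 (ZMod 47) (21 ^ 2)).toAffine.Nonsingular (X24 21 35 27 i)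
    (Y24 21 35 27 i)) : ∃ g : (F24 (ZMod 47) (21 ^ 2)).toAffine.Point, g ≠ 0 ∧ 3 • g = 0 ∧
      ∀ i, 16 • (.some _ _ (h' i) : (F24 (ZMod 47) (21 ^ 2)).toAffine.Point) =
        (![0, 1, 2, 1, 1, 0] : Fin 6 → ℤ) i • g := by
  have key : 16 • (.some _ _ (ns47 1) : (F24 (ZMod 47) (21 ^ 2)).toAffine.Point) ≠ 0 ∧ 3 • (16 • (.some _ _ (ns47 1) : (F24 (ZMod 47) (21 ^ 2)).toAffine.Point)) = 0 ∧
      ∀ i, 16 • (.some _ _ (ns47 i) : (F24 (ZMod 47) (21 ^ 2)).toAffine.Point) =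
        (![0, 1, 2, 1, 1, 0] : Fin 6 → ℤ) i • (16 • (.some _ _ (ns47 1) : (F24 (ZMod 47) (21 ^ 2)).toAffine.Point)) := by
    decide +kernel
  exact ⟨_, key⟩

private theorem ns59 (i : Fin 6) : (F24 (ZMod 59) (46 ^ 2)).toAffine.Nonsingular
    (X24 46 57 7 i) (Y24 46 57 7 i) := by
  rw [Affine.nonsingular_iff, Affine.equation_iff]
  revert i
  decide +kernel

theorem k59 (h' : ∀ i, (F24 (ZMod 59) (46 ^ 2)).toAffine.Nonsingular (X24 46 57 7 i)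
    (Y24 46 57 7 i)) : ∃ g : (F24 (ZMod 59) (46 ^ 2)).toAffine.Point, g ≠ 0 ∧ 3 • g = 0 ∧
      ∀ i, 24 • (.some _ _ (h' i) : (F24 (ZMod 59) (46 ^ 2)).toAffine.Point) =
        (![0, 0, 1, 1, 2, 2] : Fin 6 → ℤ) i • g := by
  have key : 24 • (.some _ _ (ns59 2) : (F24 (ZMod 59) (46 ^ 2)).toAffine.Point) ≠ 0 ∧ 3 • (24 • (.some _ _ (ns59 2) : (F24 (ZMod 59) (46 ^ 2)).toAffine.Point)) = 0 ∧
      ∀ i, 24 • (.some _ _ (ns59 i) : (F24 (ZMod 59) (46 ^ 2)).toAffine.Point) =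
        (![0, 0, 1, 1, 2, 2] : Fin 6 → ℤ) i • (24 • (.some _ _ (ns59 2) : (F24 (ZMod 59) (46 ^ 2)).toAffine.Point)) := by
    decide +kernel
  exact ⟨_, key⟩

private theorem ns67 (i : Fin 6) : (F24 (ZMod 67) (52 ^ 2)).toAffine.Nonsingular
    (X24 52 44 53 i) (Y24 52 44 53 i) := by
  rw [Affine.nonsingular_iff, Affine.equation_iff]
  revert i
  decide +kernel

theorem k67 (h' : ∀ i, (F24 (ZMod 67) (52 ^ 2)).toAffine.Nonsingular (X24 52 44 53 i)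
    (Y24 52 44 53 i)) : ∃ g : (F24 (ZMod 67) (52 ^ 2)).toAffine.Point, g ≠ 0 ∧ 3 • g = 0 ∧
      ∀ i, 24 • (.some _ _ (h' i) : (F24 (ZMod 67) (52 ^ 2)).toAffine.Point) =
        (![1, 1, 1, 1, 1, 1] : Fin 6 → ℤ) i • g := by
  have key : 24 • (.some _ _ (ns67 0) : (F24 (ZMod 67) (52 ^ 2)).toAffine.Point) ≠ 0 ∧ 3 • (24 • (.some _ _ (ns67 0) : (F24 (ZMod 67) (52 ^ 2)).toAffine.Point)) = 0 ∧
      ∀ i, 24 • (.some _ _ (ns67 i) : (F24 (ZMod 67) (52 ^ 2)).toAffine.Point) =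
        (![1, 1, 1, 1, 1, 1] : Fin 6 → ℤ) i • (24 • (.some _ _ (ns67 0) : (F24 (ZMod 67) (52 ^ 2)).toAffine.Point)) := by
    decide +kernel
  exact ⟨_, key⟩

private theorem ns79 (i : Fin 6) : (F24 (ZMod 79) (30 ^ 2)).toAffine.Nonsingular
    (X24 30 49 19 i) (Y24 30 49 19 i) := by
  rw [Affine.nonsingular_iff, Affine.equation_iff]
  revert i
  decide +kernel

theorem k79 (h' : ∀ i, (F24 (ZMod 79) (30 ^ 2)).toAffine.Nonsingular (X24 30 49 19 i)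
    (Y24 30 49 19 i)) : ∃ g : (F24 (ZMod 79) (30 ^ 2)).toAffine.Point, g ≠ 0 ∧ 3 • g = 0 ∧
      ∀ i, 32 • (.some _ _ (h' i) : (F24 (ZMod 79) (30 ^ 2)).toAffine.Point) =
        (![1, 1, 1, 0, 1, 2] : Fin 6 → ℤ) i • g := by
  have key : 32 • (.some _ _ (ns79 0) : (F24 (ZMod 79) (30 ^ 2)).toAffine.Point) ≠ 0 ∧ 3 • (32 • (.some _ _ (ns79 0) : (F24 (ZMod 79) (30 ^ 2)).toAffine.Point)) = 0 ∧
      ∀ i, 32 • (.some _ _ (ns79 i) : (F24 (ZMod 79) (30 ^ 2)).toAffine.Point) =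
        (![1, 1, 1, 0, 1, 2] : Fin 6 → ℤ) i • (32 • (.some _ _ (ns79 0) : (F24 (ZMod 79) (30 ^ 2)).toAffine.Point)) := by
    decide +kernel
  exact ⟨_, key⟩

private theorem ns97 (i : Fin 6) : (F24 (ZMod 97) (80 ^ 2)).toAffine.Nonsingular
    (X24 80 2 89 i) (Y24 80 2 89 i) := by
  rw [Affine.nonsingular_iff, Affine.equation_iff]
  revert i
  decide +kernel

theorem k97 (h' : ∀ i, (F24 (ZMod 97) (80 ^ 2)).toAffine.Nonsingular (X24 80 2 89 i)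
    (Y24 80 2 89 i)) : ∃ g : (F24 (ZMod 97) (80 ^ 2)).toAffine.Point, g ≠ 0 ∧ 3 • g = 0 ∧
      ∀ i, 32 • (.some _ _ (h' i) : (F24 (ZMod 97) (80 ^ 2)).toAffine.Point) =
        (![1, 1, 0, 1, 2, 2] : Fin 6 → ℤ) i • g := by
  have key : 32 • (.some _ _ (ns97 0) : (F24 (ZMod 97) (80 ^ 2)).toAffine.Point) ≠ 0 ∧ 3 • (32 • (.some _ _ (ns97 0) : (F24 (ZMod 97) (80 ^ 2)).toAffine.Point)) = 0 ∧
      ∀ i, 32 • (.some _ _ (ns97 i) : (F24 (ZMod 97) (80 ^ 2)).toAffine.Point) =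
        (![1, 1, 0, 1, 2, 2] : Fin 6 → ℤ) i • (32 • (.some _ _ (ns97 0) : (F24 (ZMod 97) (80 ^ 2)).toAffine.Point)) := by
    decide +kernel
  exact ⟨_, key⟩

theorem card37 : Nat.card (F24 (ZMod 37) (23 ^ 2)).toAffine.Point = 40 :=
  card_aux _ _ (by decide +kernel)

theorem card41 : Nat.card (F24 (ZMod 41) (7 ^ 2)).toAffine.Point = 48 :=
  card_aux _ _ (by decide +kernel)

end Pool.Agent.InfV
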