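import Pool.Agent.InfS.Gen

/-!
# Torsion group ℤ/2 × ℤ/4 and rank at least 6: the curve and its six points

`F24 K a : y² = x (x + m²) (x + n²)`, `m, n = 161 k² ∓ 578 k + 161`, `a = k²`, with
`p² = 2 (393129 k² - 25921)`, `q² = 2 (393129 - 25921 k²)` (a curve of genus one).
With `D = 25921 (a + 1)²` and `s = 334084 a` a pair `(ξ, S)` with `S² ξ = (ξ - 1)(D ξ - s)` gives the point
`(S², S (s/ξ - D ξ))`.  The six pairs are `(xi24 k p q i, S24 k p q i)`.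
-/

set_option autoImplicit false

namespace Pool.Agent.InfV

open WeierstrassCurve Pool.Agent.InfR Pool.Agent.InfS

/-- `y² = x (x + m²) (x + n²)` -/
def F24 (K : Type*) [Field K] (a : K) : WeierstrassCurve K :=
  ⟨0, 2 * (25921 * (a + 1) ^ 2 + 334084 * a), 0, (25921 * (a + 1) ^ 2 - 334084 * a) ^ 2, 0⟩

/-- a cubic -/
def pU {K : Type*} [Field K] (a : K) : K :=
  671898241 - 19549073859 * a + 141732845059 * a ^ 2 - 99049307841 * a ^ 3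

/-- the reversed cubic -/
def pV {K : Type*} [Field K] (a : K) : K :=
  671898241 * a ^ 3 - 19549073859 * a ^ 2 + 141732845059 * a - 99049307841

/-- a linear form -/
def pW {K : Type*} [Field K] (a : K) : K := 25921 - 280929 * a

/-- the reversed linear form -/
def pZ {K : Type*} [Field K] (a : K) : K := 25921 * a - 280929

/-- a product of two quadratics -/
def pQ {K : Type*} [Field K] (a : K) : K :=
  (4173281 - 82215938 * a + 365173281 * a ^ 2) *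
    (671898241 - 15891076418 * a + 99049307841 * a ^ 2)

/-- the reversed product -/
def pR {K : Type*} [Field K] (a : K) : K :=
  (4173281 * a ^ 2 - 82215938 * a + 365173281) *
    (671898241 * a ^ 2 - 15891076418 * a + 99049307841)

/-- the abscissas on `y² = x (x - 1)(x - t²)` -/
def xi24 {K : Type*} [Field K] (k p q : K) : Fin 6 → K :=
  ![83521 / 25921,
    393129 / 525625,
    (p / (476 * k)) ^ 2,
    (q / 476) ^ 2,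
    (pU (k ^ 2) / (320 * (k ^ 2 + 1) * pW (k ^ 2) * k * p)) ^ 2,
    (pV (k ^ 2) / (320 * (k ^ 2 + 1) * pZ (k ^ 2) * q)) ^ 2]

/-- the square roots of the abscissas of the six points -/
def S24 {K : Type*} [Field K] (k p q : K) : Fin 6 → K :=
  ![240 * (1 - k ^ 2),
    182 * p * q / 454575,
    23 * (529 - 627 * k ^ 2) * (49 - 529 * k ^ 2) / (34 * k * p),
    23 * (529 * k ^ 2 - 627) * (49 * k ^ 2 - 529) / (34 * q),
    (49 - 529 * k ^ 2) * (529 - 49 * k ^ 2) * pQ (k ^ 2) /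
      (320 * pU (k ^ 2) * pW (k ^ 2) * k * p),
    (49 * k ^ 2 - 529) * (529 * k ^ 2 - 49) * pR (k ^ 2) /
      (320 * pV (k ^ 2) * pZ (k ^ 2) * q)]

/-- the abscissas of the six points -/
def X24 {K : Type*} [Field K] (k p q : K) (i : Fin 6) : K := S24 k p q i ^ 2

/-- the ordinates of the six points -/
def Y24 {K : Type*} [Field K] (k p q : K) (i : Fin 6) : K :=
  S24 k p q i * (334084 * k ^ 2 / xi24 k p q i - 25921 * (k ^ 2 + 1) ^ 2 * xi24 k p q i)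

/-- the nonvanishing of the factors -/
structure Ok24 {K : Type*} [Field K] (k p q : K) : Prop where
  k0 : k ≠ 0
  p0 : p ≠ 0
  q0 : q ≠ 0
  n1 : k ^ 2 + 1 ≠ 0
  nd : 25921 * (k ^ 2 + 1) ^ 2 - 334084 * k ^ 2 ≠ 0
  nU : pU (k ^ 2) ≠ 0
  nV : pV (k ^ 2) ≠ 0
  nW : pW (k ^ 2) ≠ 0
  nZ : pZ (k ^ 2) ≠ 0
  c1 : (25921 : K) ≠ 0
  c2 : (525625 : K) ≠ 0
  c3 : (476 : K) ≠ 0
  c4 : (320 : K) ≠ 0
  c5 : (34 : K) ≠ 0
  c6 : (454575 : K) ≠ 0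
  c7 : (83521 : K) ≠ 0
  c8 : (393129 : K) ≠ 0

instance fact37 : Fact (Nat.Prime 37) := ⟨by norm_num⟩
instance fact41 : Fact (Nat.Prime 41) := ⟨by norm_num⟩
instance fact47 : Fact (Nat.Prime 47) := ⟨by norm_num⟩
instance fact59 : Fact (Nat.Prime 59) := ⟨by norm_num⟩
instance fact67 : Fact (Nat.Prime 67) := ⟨by norm_num⟩
instance fact79 : Fact (Nat.Prime 79) := ⟨by norm_num⟩
instance fact97 : Fact (Nat.Prime 97) := ⟨by norm_num⟩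

/-- the equations of the base curve and the residues -/
structure St24 (k p q : ℚ) : Prop where
  e1 : p ^ 2 = 2 * (393129 * k ^ 2 - 25921)
  e2 : q ^ 2 = 2 * (393129 - 25921 * k ^ 2)
  k37 : Cg 37 k 23
  p37 : Cg 37 p 34
  q37 : Cg 37 q 29
  k41 : Cg 41 k 7
  p41 : Cg 41 p 21
  q41 : Cg 41 q 12
  k47 : Cg 47 k 21
  p47 : Cg 47 p 35
  q47 : Cg 47 q 27
  k59 : Cg 59 k 46
  p59 : Cg 59 p 57
  q59 : Cg 59 q 7
  k67 : Cg 67 k 52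
  p67 : Cg 67 p 44
  q67 : Cg 67 q 53
  k79 : Cg 79 k 30
  p79 : Cg 79 p 49
  q79 : Cg 79 q 19
  k97 : Cg 97 k 80
  p97 : Cg 97 p 2
  q97 : Cg 97 q 89

theorem F24_Δ (K : Type*) [Field K] (a : K) : (F24 K a).Δ =
    256 * 25921 * 334084 * (25921 * (a + 1) ^ 2 - 334084 * a) ^ 4 * (a + 1) ^ 2 * a := by
  simp only [WeierstrassCurve.Δ, WeierstrassCurve.b₂, WeierstrassCurve.b₄, WeierstrassCurve.b₆,
    WeierstrassCurve.b₈, F24]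
  ring

section cg

variable {l : ℕ} [Fact l.Prime] {k : ℚ} {r : ZMod l}

theorem cgU (hk : Cg l k r) : Cg l (pU k) (pU r) :=
  Cg.sub (Cg.add (Cg.sub (Cg.ofNat 671898241) (Cg.mul (Cg.ofNat 19549073859) hk))
    (Cg.mul (Cg.ofNat 141732845059) (Cg.pow hk 2))) (Cg.mul (Cg.ofNat 99049307841) (Cg.pow hk 3))

theorem cgV (hk : Cg l k r) : Cg l (pV k) (pV r) :=
  Cg.sub (Cg.add (Cg.sub (Cg.mul (Cg.ofNat 671898241) (Cg.pow hk 3))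
    (Cg.mul (Cg.ofNat 19549073859) (Cg.pow hk 2))) (Cg.mul (Cg.ofNat 141732845059) hk))
    (Cg.ofNat 99049307841)

theorem cgW (hk : Cg l k r) : Cg l (pW k) (pW r) :=
  Cg.sub (Cg.ofNat 25921) (Cg.mul (Cg.ofNat 280929) hk)

theorem cgZ (hk : Cg l k r) : Cg l (pZ k) (pZ r) :=
  Cg.sub (Cg.mul (Cg.ofNat 25921) hk) (Cg.ofNat 280929)

theorem cgQ (hk : Cg l k r) : Cg l (pQ k) (pQ r) :=
  Cg.mul (Cg.add (Cg.sub (Cg.ofNat 4173281) (Cg.mul (Cg.ofNat 82215938) hk))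
    (Cg.mul (Cg.ofNat 365173281) (Cg.pow hk 2)))
    (Cg.add (Cg.sub (Cg.ofNat 671898241) (Cg.mul (Cg.ofNat 15891076418) hk))
    (Cg.mul (Cg.ofNat 99049307841) (Cg.pow hk 2)))

theorem cgR (hk : Cg l k r) : Cg l (pR k) (pR r) :=
  Cg.mul (Cg.add (Cg.sub (Cg.mul (Cg.ofNat 4173281) (Cg.pow hk 2)) (Cg.mul (Cg.ofNat 82215938) hk))
    (Cg.ofNat 365173281))
    (Cg.add (Cg.sub (Cg.mul (Cg.ofNat 671898241) (Cg.pow hk 2)) (Cg.mul (Cg.ofNat 15891076418) hk))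
    (Cg.ofNat 99049307841))

end cg

theorem ok24 {l : ℕ} [Fact l.Prime] {k p q : ℚ} {r s t : ZMod l} (hk : Cg l k r) (hp : Cg l p s)
    (hq : Cg l q t) (h : Ok24 r s t) : Ok24 k p q where
  k0 := hk.ne_zero h.k0
  p0 := hp.ne_zero h.p0
  q0 := hq.ne_zero h.q0
  n1 := (Cg.add (Cg.pow hk 2) Cg.one).ne_zero h.n1
  nd := (Cg.sub (Cg.mul (Cg.ofNat 25921) (Cg.pow (Cg.add (Cg.pow hk 2) Cg.one) 2))
    (Cg.mul (Cg.ofNat 334084) (Cg.pow hk 2))).ne_zero h.nd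
  nU := (cgU (Cg.pow hk 2)).ne_zero h.nU
  nV := (cgV (Cg.pow hk 2)).ne_zero h.nV
  nW := (cgW (Cg.pow hk 2)).ne_zero h.nW
  nZ := (cgZ (Cg.pow hk 2)).ne_zero h.nZ
  c1 := by norm_num
  c2 := by norm_num
  c3 := by norm_num
  c4 := by norm_num
  c5 := by norm_num
  c6 := by norm_num
  c7 := by norm_num
  c8 := by norm_num

theorem cgxi {l : ℕ} [Fact l.Prime] {k p q : ℚ} {r s t : ZMod l} (hk : Cg l k r) (hp : Cg l p s)
    (hq : Cg l q t) (h : Ok24 r s t) (i : Fin 6) :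
    Cg l (xi24 k p q i) (xi24 r s t i) ∧ xi24 r s t i ≠ 0 := by
  have hk2 := Cg.pow hk 2
  have d1 : 476 * r ≠ 0 := mul_ne_zero h.c3 h.k0
  have d2 : 320 * (r ^ 2 + 1) * pW (r ^ 2) * r * s ≠ 0 :=
    mul_ne_zero (mul_ne_zero (mul_ne_zero (mul_ne_zero h.c4 h.n1) h.nW) h.k0) h.p0
  have d3 : 320 * (r ^ 2 + 1) * pZ (r ^ 2) * t ≠ 0 :=
    mul_ne_zero (mul_ne_zero (mul_ne_zero h.c4 h.n1) h.nZ) h.q0
  fin_cases i
  · exact ⟨Cg.div (Cg.ofNat 83521) (Cg.ofNat 25921) h.c1, div_ne_zero h.c7 h.c1⟩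
  · exact ⟨Cg.div (Cg.ofNat 393129) (Cg.ofNat 525625) h.c2, div_ne_zero h.c8 h.c2⟩
  · exact ⟨Cg.pow (Cg.div hp (Cg.mul (Cg.ofNat 476) hk) d1) 2,
      pow_ne_zero 2 (div_ne_zero h.p0 d1)⟩
  · exact ⟨Cg.pow (Cg.div hq (Cg.ofNat 476) h.c3) 2, pow_ne_zero 2 (div_ne_zero h.q0 h.c3)⟩
  · exact ⟨Cg.pow (Cg.div (cgU hk2) (Cg.mul (Cg.mul (Cg.mul (Cg.mul (Cg.ofNat 320)
      (Cg.add hk2 Cg.one)) (cgW hk2)) hk) hp) d2) 2, pow_ne_zero 2 (div_ne_zero h.nU d2)⟩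
  · exact ⟨Cg.pow (Cg.div (cgV hk2) (Cg.mul (Cg.mul (Cg.mul (Cg.ofNat 320)
      (Cg.add hk2 Cg.one)) (cgZ hk2)) hq) d3) 2, pow_ne_zero 2 (div_ne_zero h.nV d3)⟩

theorem cgS {l : ℕ} [Fact l.Prime] {k p q : ℚ} {r s t : ZMod l} (hk : Cg l k r) (hp : Cg l p s)
    (hq : Cg l q t) (h : Ok24 r s t) (i : Fin 6) : Cg l (S24 k p q i) (S24 r s t i) := by
  have hk2 := Cg.pow hk 2
  have d1 : 34 * r * s ≠ 0 := mul_ne_zero (mul_ne_zero h.c5 h.k0) h.p0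
  have d2 : 34 * t ≠ 0 := mul_ne_zero h.c5 h.q0
  have d3 : 320 * pU (r ^ 2) * pW (r ^ 2) * r * s ≠ 0 :=
    mul_ne_zero (mul_ne_zero (mul_ne_zero (mul_ne_zero h.c4 h.nU) h.nW) h.k0) h.p0
  have d4 : 320 * pV (r ^ 2) * pZ (r ^ 2) * t ≠ 0 :=
    mul_ne_zero (mul_ne_zero (mul_ne_zero h.c4 h.nV) h.nZ) h.q0
  fin_cases i
  · exact Cg.mul (Cg.ofNat 240) (Cg.sub Cg.one hk2)
  · exact Cg.div (Cg.mul (Cg.mul (Cg.ofNat 182) hp) hq) (Cg.ofNat 454575) h.c6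
  · exact Cg.div (Cg.mul (Cg.mul (Cg.ofNat 23) (Cg.sub (Cg.ofNat 529) (Cg.mul (Cg.ofNat 627) hk2)))
      (Cg.sub (Cg.ofNat 49) (Cg.mul (Cg.ofNat 529) hk2)))
      (Cg.mul (Cg.mul (Cg.ofNat 34) hk) hp) d1
  · exact Cg.div (Cg.mul (Cg.mul (Cg.ofNat 23) (Cg.sub (Cg.mul (Cg.ofNat 529) hk2) (Cg.ofNat 627)))
      (Cg.sub (Cg.mul (Cg.ofNat 49) hk2) (Cg.ofNat 529)))
      (Cg.mul (Cg.ofNat 34) hq) d2
  · exact Cg.div (Cg.mul (Cg.mul (Cg.sub (Cg.ofNat 49) (Cg.mul (Cg.ofNat 529) hk2))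
      (Cg.sub (Cg.ofNat 529) (Cg.mul (Cg.ofNat 49) hk2))) (cgQ hk2))
      (Cg.mul (Cg.mul (Cg.mul (Cg.mul (Cg.ofNat 320) (cgU hk2)) (cgW hk2)) hk) hp) d3
  · exact Cg.div (Cg.mul (Cg.mul (Cg.sub (Cg.mul (Cg.ofNat 49) hk2) (Cg.ofNat 529))
      (Cg.sub (Cg.mul (Cg.ofNat 529) hk2) (Cg.ofNat 49))) (cgR hk2))
      (Cg.mul (Cg.mul (Cg.mul (Cg.ofNat 320) (cgV hk2)) (cgZ hk2)) hq) d4

theorem cgX24 {l : ℕ} [Fact l.Prime] {k p q : ℚ} {r s t : ZMod l} (hk : Cg l k r) (hp : Cg l p s)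
    (hq : Cg l q t) (h : Ok24 r s t) (i : Fin 6) : Cg l (X24 k p q i) (X24 r s t i) :=
  Cg.pow (cgS hk hp hq h i) 2

theorem cgY24 {l : ℕ} [Fact l.Prime] {k p q : ℚ} {r s t : ZMod l} (hk : Cg l k r) (hp : Cg l p s)
    (hq : Cg l q t) (h : Ok24 r s t) (i : Fin 6) : Cg l (Y24 k p q i) (Y24 r s t i) := by
  obtain ⟨h1, h2⟩ := cgxi hk hp hq h i
  exact Cg.mul (cgS hk hp hq h i) (Cg.sub (Cg.div (Cg.mul (Cg.ofNat 334084) (Cg.pow hk 2)) h1 h2)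
    (Cg.mul (Cg.mul (Cg.ofNat 25921) (Cg.pow (Cg.add (Cg.pow hk 2) Cg.one) 2)) h1))

theorem F24_ell {k p q : ℚ} (h : Ok24 k p q) : (F24 ℚ (k ^ 2)).Δ ≠ 0 := by
  rw [F24_Δ]
  exact mul_ne_zero (mul_ne_zero (mul_ne_zero (by norm_num) (pow_ne_zero _ h.nd))
    (pow_ne_zero _ h.n1)) (pow_ne_zero _ h.k0)

theorem F24_ns {k p q : ℚ} (h : Ok24 k p q) {x y : ℚ}
    (he : y ^ 2 = x ^ 3 + 2 * (25921 * (k ^ 2 + 1) ^ 2 + 334084 * k ^ 2) * x ^ 2 +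
      (25921 * (k ^ 2 + 1) ^ 2 - 334084 * k ^ 2) ^ 2 * x) :
    (F24 ℚ (k ^ 2)).toAffine.Nonsingular x y := by
  rw [← Affine.equation_iff_nonsingular_of_Δ_ne_zero (F24_ell h), Affine.equation_iff]
  simp only [F24]
  linear_combination he

theorem mk_aux (D s ξ S : ℚ) (hξ : ξ ≠ 0) (he : S ^ 2 * ξ = (ξ - 1) * (D * ξ - s)) :
    (S * (s / ξ - D * ξ)) ^ 2 = (S ^ 2) ^ 3 + 2 * (D + s) * (S ^ 2) ^ 2 + (D - s) ^ 2 * S ^ 2 := by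
  have h1 : s / ξ - D * ξ = (s - D * ξ ^ 2) / ξ := by
    field_simp
  rw [h1, mul_pow, div_pow, ← mul_div_assoc, div_eq_iff (pow_ne_zero 2 hξ)]
  linear_combination (-S ^ 2 * (S ^ 2 * ξ + (ξ - 1) * (D * ξ - s) + 2 * (D + s) * ξ)) * he

theorem pair_aux (a P U W F Q S : ℚ) (Q1 Q2 : ℚ) (hP : P ≠ 0) (hU : U ≠ 0) (hW : W ≠ 0)
    (h1 : a + 1 ≠ 0) (hQ : Q = Q1 * Q2)
    (n1 : U ^ 2 - 102400 * (a + 1) ^ 2 * W ^ 2 * P = F * Q1 ^ 2)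
    (n2 : 25921 * U ^ 2 - 334084 * 102400 * a * W ^ 2 * P = F * Q2 ^ 2)
    (hS : S ^ 2 = F ^ 2 * Q ^ 2 / (102400 * U ^ 2 * W ^ 2 * P)) (ξ : ℚ)
    (hξ : ξ = U ^ 2 / (102400 * (a + 1) ^ 2 * W ^ 2 * P)) :
    S ^ 2 * ξ = (ξ - 1) * (25921 * (a + 1) ^ 2 * ξ - 334084 * a) := by
  have e1 : ξ - 1 = F * Q1 ^ 2 / (102400 * (a + 1) ^ 2 * W ^ 2 * P) := by
    rw [hξ, ← n1]
    field_simp
  have e2 : 25921 * (a + 1) ^ 2 * ξ - 334084 * a = F * Q2 ^ 2 / (102400 * W ^ 2 * P) := by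
    rw [hξ, ← n2]
    field_simp
  rw [e1, e2, hS, hξ, hQ]
  field_simp

theorem he0 (k p q : ℚ) : S24 k p q 0 ^ 2 * xi24 k p q 0 = (xi24 k p q 0 - 1) *
    (25921 * (k ^ 2 + 1) ^ 2 * xi24 k p q 0 - 334084 * k ^ 2) := by
  show (240 * (1 - k ^ 2)) ^ 2 * (83521 / 25921) = (83521 / 25921 - 1) *
    (25921 * (k ^ 2 + 1) ^ 2 * (83521 / 25921) - 334084 * k ^ 2)
  ring

theorem he1 {k p q : ℚ} (h : St24 k p q) : S24 k p q 1 ^ 2 * xi24 k p q 1 =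
    (xi24 k p q 1 - 1) * (25921 * (k ^ 2 + 1) ^ 2 * xi24 k p q 1 - 334084 * k ^ 2) := by
  show (182 * p * q / 454575) ^ 2 * (393129 / 525625) = (393129 / 525625 - 1) *
    (25921 * (k ^ 2 + 1) ^ 2 * (393129 / 525625) - 334084 * k ^ 2)
  rw [div_pow, mul_pow, mul_pow, h.e1, h.e2]
  ring

theorem he2 {k p q : ℚ} (h : St24 k p q) (o : Ok24 k p q) : S24 k p q 2 ^ 2 * xi24 k p q 2 =
    (xi24 k p q 2 - 1) * (25921 * (k ^ 2 + 1) ^ 2 * xi24 k p q 2 - 334084 * k ^ 2) := by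
  show (23 * (529 - 627 * k ^ 2) * (49 - 529 * k ^ 2) / (34 * k * p)) ^ 2 * (p / (476 * k)) ^ 2 =
    ((p / (476 * k)) ^ 2 - 1) * (25921 * (k ^ 2 + 1) ^ 2 * (p / (476 * k)) ^ 2 - 334084 * k ^ 2)
  have hk := o.k0
  have hp := o.p0
  have e1 : (23 * (529 - 627 * k ^ 2) * (49 - 529 * k ^ 2) / (34 * k * p)) ^ 2 *
      (p / (476 * k)) ^ 2 =
      (23 * (529 - 627 * k ^ 2) * (49 - 529 * k ^ 2)) ^ 2 / (34 * k * (476 * k)) ^ 2 := by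
    field_simp
  rw [e1, div_pow, h.e1]
  field_simp
  ring

theorem he3 {k p q : ℚ} (h : St24 k p q) (o : Ok24 k p q) : S24 k p q 3 ^ 2 * xi24 k p q 3 =
    (xi24 k p q 3 - 1) * (25921 * (k ^ 2 + 1) ^ 2 * xi24 k p q 3 - 334084 * k ^ 2) := by
  show (23 * (529 * k ^ 2 - 627) * (49 * k ^ 2 - 529) / (34 * q)) ^ 2 * (q / 476) ^ 2 =
    ((q / 476) ^ 2 - 1) * (25921 * (k ^ 2 + 1) ^ 2 * (q / 476) ^ 2 - 334084 * k ^ 2)
  have hq := o.q0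
  have e1 : (23 * (529 * k ^ 2 - 627) * (49 * k ^ 2 - 529) / (34 * q)) ^ 2 * (q / 476) ^ 2 =
      (23 * (529 * k ^ 2 - 627) * (49 * k ^ 2 - 529)) ^ 2 / (34 * 476) ^ 2 := by
    field_simp
  rw [e1, div_pow, h.e2]
  ring

theorem he4 {k p q : ℚ} (h : St24 k p q) (o : Ok24 k p q) : S24 k p q 4 ^ 2 * xi24 k p q 4 =
    (xi24 k p q 4 - 1) * (25921 * (k ^ 2 + 1) ^ 2 * xi24 k p q 4 - 334084 * k ^ 2) := by
  have hk := o.k0
  have hp := o.p0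
  refine pair_aux (k ^ 2) (k ^ 2 * p ^ 2) (pU (k ^ 2)) (pW (k ^ 2))
    ((49 - 529 * k ^ 2) * (529 - 49 * k ^ 2)) (pQ (k ^ 2)) (S24 k p q 4)
    (4173281 - 82215938 * k ^ 2 + 365173281 * (k ^ 2) ^ 2)
    (671898241 - 15891076418 * k ^ 2 + 99049307841 * (k ^ 2) ^ 2)
    (mul_ne_zero (pow_ne_zero 2 hk) (pow_ne_zero 2 hp)) o.nU o.nW o.n1 rfl ?_ ?_ ?_ _ ?_
  · rw [h.e1]
    unfold pU pW
    ring
  · rw [h.e1]
    unfold pU pW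
    ring
  · show ((49 - 529 * k ^ 2) * (529 - 49 * k ^ 2) * pQ (k ^ 2) /
      (320 * pU (k ^ 2) * pW (k ^ 2) * k * p)) ^ 2 = _
    rw [div_pow]
    congr 1 <;> ring
  · show (pU (k ^ 2) / (320 * (k ^ 2 + 1) * pW (k ^ 2) * k * p)) ^ 2 = _
    rw [div_pow]
    congr 1
    ring

theorem he5 {k p q : ℚ} (h : St24 k p q) (o : Ok24 k p q) : S24 k p q 5 ^ 2 * xi24 k p q 5 =
    (xi24 k p q 5 - 1) * (25921 * (k ^ 2 + 1) ^ 2 * xi24 k p q 5 - 334084 * k ^ 2) := by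
  have hq := o.q0
  refine pair_aux (k ^ 2) (q ^ 2) (pV (k ^ 2)) (pZ (k ^ 2))
    ((49 * k ^ 2 - 529) * (529 * k ^ 2 - 49)) (pR (k ^ 2)) (S24 k p q 5)
    (4173281 * (k ^ 2) ^ 2 - 82215938 * k ^ 2 + 365173281)
    (671898241 * (k ^ 2) ^ 2 - 15891076418 * k ^ 2 + 99049307841)
    (pow_ne_zero 2 hq) o.nV o.nZ o.n1 rfl ?_ ?_ ?_ _ ?_
  · rw [h.e2]
    unfold pV pZ
    ring
  · rw [h.e2]
    unfold pV pZ
    ring
  · show ((49 * k ^ 2 - 529) * (529 * k ^ 2 - 49) * pR (k ^ 2) /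
      (320 * pV (k ^ 2) * pZ (k ^ 2) * q)) ^ 2 = _
    rw [div_pow]
    congr 1 <;> ring
  · show (pV (k ^ 2) / (320 * (k ^ 2 + 1) * pZ (k ^ 2) * q)) ^ 2 = _
    rw [div_pow]
    congr 1
    ring

theorem xi_ne {k p q : ℚ} (o : Ok24 k p q) (i : Fin 6) : xi24 k p q i ≠ 0 := by
  have hk := o.k0
  have hp := o.p0
  have hq := o.q0
  have h1 := o.n1
  have hU := o.nU
  have hV := o.nV
  have hW := o.nW
  have hZ := o.nZ
  fin_cases i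
  · show (83521 / 25921 : ℚ) ≠ 0
    norm_num
  · show (393129 / 525625 : ℚ) ≠ 0
    norm_num
  · show (p / (476 * k)) ^ 2 ≠ 0
    positivity
  · show (q / 476) ^ 2 ≠ 0
    positivity
  · show (pU (k ^ 2) / (320 * (k ^ 2 + 1) * pW (k ^ 2) * k * p)) ^ 2 ≠ 0
    positivity
  · show (pV (k ^ 2) / (320 * (k ^ 2 + 1) * pZ (k ^ 2) * q)) ^ 2 ≠ 0
    positivity

theorem F24_pt {k p q : ℚ} (h : St24 k p q) (o : Ok24 k p q) (i : Fin 6) :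
    (F24 ℚ (k ^ 2)).toAffine.Nonsingular (X24 k p q i) (Y24 k p q i) := by
  have he : S24 k p q i ^ 2 * xi24 k p q i = (xi24 k p q i - 1) *
      (25921 * (k ^ 2 + 1) ^ 2 * xi24 k p q i - 334084 * k ^ 2) := by
    fin_cases i
    · exact he0 k p q
    · exact he1 h
    · exact he2 h o
    · exact he3 h o
    · exact he4 h o
    · exact he5 h o
  exact F24_ns o (mk_aux (25921 * (k ^ 2 + 1) ^ 2) (334084 * k ^ 2) _ _ (xi_ne o i) he)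

theorem F24_rdn {l : ℕ} [Fact l.Prime] {a : ℚ} {r : ZMod l} (ha : Cg l a r)
    (hD : (F24 (ZMod l) r).Δ ≠ 0) : ∃ f, Rdn (F24 ℚ a) l (F24 (ZMod l) r) f :=
  exists_rdn Cg.zero
    (Cg.mul (Cg.ofNat 2) (Cg.add (Cg.mul (Cg.ofNat 25921) (Cg.pow (Cg.add ha Cg.one) 2))
      (Cg.mul (Cg.ofNat 334084) ha)))
    Cg.zero
    (Cg.pow (Cg.sub (Cg.mul (Cg.ofNat 25921) (Cg.pow (Cg.add ha Cg.one) 2))
      (Cg.mul (Cg.ofNat 334084) ha)) 2)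
    Cg.zero hD

end Pool.Agent.InfV
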